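import Mathlib

/-!
# The primes are not an interpolation set for skew products of class `C^{1,1}`

There is a function `f` on the primes with the values `0` and `1` such that no skew product
`T (u, v) = (u + a, v + k u + φ u)` of the torus with `φ` of class `C^{1,1}`, no point `z` and no
continuous function `F` satisfy `F (T^p z) = f p` for all primes `p`. The same holds for every set `S`
of natural numbers with more than `C √N log N` elements up to `N`, for all `C` and infinitely many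
`N`.

The proof: up to a small error the orbit of length `N` is determined by the values of `φ` and its
derivative, up to `1 / N^2`, on a grid with about `√N` points, so that there are at most
`exp (C √N log N)` different functions on `S ∩ [0, N]` of this form; a diagonal argument gives `f`.
-/

set_option autoImplicit false

open Filter Topology Set

namespace Pool.Agent.Results.MP_ff27c1_an.SmoothSkewProducts

/-- The skew product `T (u, v) = (u + a, v + k u + φ u)` of the torus. -/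
noncomputable def skew (a : UnitAddCircle) (k : ℤ) (φ : ℝ → ℝ) (hφ : Function.Periodic φ 1)
    (z : UnitAddCircle × UnitAddCircle) : UnitAddCircle × UnitAddCircle :=
  (z.1 + a, z.2 + k • z.1 + ((hφ.lift z.1 : ℝ) : UnitAddCircle))

/-- The first coordinate of the `n`-th point of the orbit (in the covering plane). -/
noncomputable def px (α x : ℝ) (n : ℕ) : ℝ := x + n * α

/-- The second coordinate of the `n`-th point of the orbit. -/
noncomputable def py (k : ℤ) (φ : ℝ → ℝ) (α x y : ℝ) (n : ℕ) : ℝ :=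
  y + ∑ j ∈ Finset.range n, (k * (x + j * α) + φ (x + j * α))

lemma iter (k : ℤ) (φ : ℝ → ℝ) (hφ : Function.Periodic φ 1) (α x y : ℝ) (n : ℕ) :
    (skew (α : UnitAddCircle) k φ hφ)^[n] ((x : UnitAddCircle), (y : UnitAddCircle)) =
      (((px α x n : ℝ) : UnitAddCircle), ((py k φ α x y n : ℝ) : UnitAddCircle)) := by
  induction n with
  | zero => simp [px, py]
  | succ n ih =>
    rw [Function.iterate_succ_apply', ih]
    unfold skew
    apply Prod.ext
    · simp only [px]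
      rw [← AddCircle.coe_add]
      congr 1
      push_cast
      ring
    · simp only [py, Finset.sum_range_succ]
      rw [Function.Periodic.lift_coe, ← AddCircle.coe_zsmul, ← AddCircle.coe_add,
        ← AddCircle.coe_add]
      congr 1
      simp only [px, zsmul_eq_mul]
      ring

/-- The functions `φ` with period `1` which are bounded by `K` in the `C^{1,1}` norm. -/
structure Cls (K : ℕ) (φ : ℝ → ℝ) : Prop where
  per : Function.Periodic φ 1
  diff : Differentiable ℝ φ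
  lip : ∀ a b, |deriv φ a - deriv φ b| ≤ K * |a - b|
  lip0 : ∀ a b, |φ a - φ b| ≤ K * |a - b|
  bd : ∀ t, |φ t| ≤ K
  bd1 : ∀ t, |deriv φ t| ≤ K

lemma taylor {D : ℝ → ℝ} {K η r c z : ℝ} (hD : Differentiable ℝ D)
    (hK : ∀ a b, |deriv D a - deriv D b| ≤ K * |a - b|) (hK0 : 0 ≤ K) (hη : 0 ≤ η)
    (h0 : |D c| ≤ η) (h1 : |deriv D c| ≤ η) (hr0 : 0 ≤ r) (hz : |z - c| ≤ r) (hr : r ≤ 1) :
    |D z| ≤ 2 * η + K * r ^ 2 := by
  have h2 : ‖D z - D c‖ ≤ (η + K * r) * ‖z - c‖ := by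
    refine Convex.norm_image_sub_le_of_norm_deriv_le (s := Metric.closedBall c r)
      (fun t _ => hD t) ?_ (convex_closedBall c r) (Metric.mem_closedBall_self hr0) ?_
    · intro t ht
      rw [Metric.mem_closedBall, Real.dist_eq] at ht
      rw [Real.norm_eq_abs]
      have h3 : |deriv D t| ≤ |deriv D c| + |deriv D t - deriv D c| := by
        have := abs_add_le (deriv D c) (deriv D t - deriv D c)
        rwa [add_sub_cancel] at this
      have h4 := hK t c
      have h5 : K * |t - c| ≤ K * r := mul_le_mul_of_nonneg_left ht hK0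
      linarith
    · rw [Metric.mem_closedBall, Real.dist_eq]; exact hz
  rw [Real.norm_eq_abs, Real.norm_eq_abs] at h2
  have h3 : |D z| ≤ |D c| + |D z - D c| := by
    have := abs_add_le (D c) (D z - D c)
    rwa [add_sub_cancel] at this
  have h4 : (η + K * r) * |z - c| ≤ (η + K * r) * r :=
    mul_le_mul_of_nonneg_left hz (by positivity)
  have h5 : η * r ≤ η * 1 := mul_le_mul_of_nonneg_left hr hη
  nlinarith

lemma close_fun {K M : ℕ} (hM : 0 < M) {φ ψ : ℝ → ℝ} (h1 : Cls K φ) (h2 : Cls K ψ) {η : ℝ}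
    (hη : 0 ≤ η) (h3 : ∀ i < M, |φ ((i : ℝ) / M) - ψ ((i : ℝ) / M)| ≤ η)
    (h4 : ∀ i < M, |deriv φ ((i : ℝ) / M) - deriv ψ ((i : ℝ) / M)| ≤ η) (z : ℝ) :
    |φ z - ψ z| ≤ 2 * η + 2 * K * (1 / (M : ℝ)) ^ 2 := by
  have hM' : (0 : ℝ) < M := by exact_mod_cast hM
  have e1 : φ z = φ (Int.fract z) := by
    have := h1.per.sub_zsmul_eq (x := z) ⌊z⌋
    rw [← this]
    congr 1
    rw [zsmul_eq_mul, mul_one, Int.self_sub_floor]
  have e2 : ψ z = ψ (Int.fract z) := by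
    have := h2.per.sub_zsmul_eq (x := z) ⌊z⌋
    rw [← this]
    congr 1
    rw [zsmul_eq_mul, mul_one, Int.self_sub_floor]
  rw [e1, e2]
  set w := Int.fract z with hw
  have hw0 : 0 ≤ w := Int.fract_nonneg z
  have hw1 : w < 1 := Int.fract_lt_one z
  set i := ⌊(M : ℝ) * w⌋₊ with hi
  have hi1 : (i : ℝ) ≤ M * w := Nat.floor_le (by positivity)
  have hi2 : (M : ℝ) * w < i + 1 := Nat.lt_floor_add_one _
  have hiM : i < M := by
    have : (i : ℝ) < M := by nlinarith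
    exact_mod_cast this
  have hd : ∀ t, deriv (fun t => φ t - ψ t) t = deriv φ t - deriv ψ t := fun t =>
    deriv_sub (h1.diff t) (h2.diff t)
  refine taylor (D := fun t => φ t - ψ t) (K := 2 * K) (c := (i : ℝ) / M)
    (h1.diff.sub h2.diff) ?_ (by positivity) hη (h3 i hiM) ?_ (by positivity) ?_ ?_
  · intro a b
    rw [hd, hd]
    have a1 := h1.lip a b
    have a2 := h2.lip a b
    have : deriv φ a - deriv ψ a - (deriv φ b - deriv ψ b) =
      (deriv φ a - deriv φ b) - (deriv ψ a - deriv ψ b) := by ring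
    rw [this]
    have := abs_sub (deriv φ a - deriv φ b) (deriv ψ a - deriv ψ b)
    linarith
  · rw [hd]; exact h4 i hiM
  · rw [abs_le]
    constructor
    · rw [neg_le_sub_iff_le_add]
      rw [div_le_iff₀ hM']
      have : (w + 1 / M) * M = M * w + 1 := by field_simp
      linarith
    · rw [sub_le_iff_le_add, ← add_div, le_div_iff₀ hM']
      linarith
  · rw [div_le_one hM']
    exact_mod_cast hM

lemma close_orbit {K M : ℕ} (hM : 0 < M) (k : ℤ) {φ ψ : ℝ → ℝ} (h1 : Cls K φ) (h2 : Cls K ψ)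
    {η α x y α' x' y' : ℝ}
    (hη : 0 ≤ η) (h3 : ∀ i < M, |φ ((i : ℝ) / M) - ψ ((i : ℝ) / M)| ≤ η)
    (h4 : ∀ i < M, |deriv φ ((i : ℝ) / M) - deriv ψ ((i : ℝ) / M)| ≤ η)
    (hα : |α - α'| ≤ η) (hx : |x - x'| ≤ η) (hy : |y - y'| ≤ η) {n N : ℕ} (hn : n ≤ N) :
    |px α x n - px α' x' n| ≤ (N + 1) * η ∧
    |py k φ α x y n - py k ψ α' x' y' n| ≤
      η + N * ((|(k : ℝ)| + K) * ((N + 1) * η) + (2 * η + 2 * K * (1 / (M : ℝ)) ^ 2)) := by
  have key : ∀ j : ℕ, j ≤ N → |(x + j * α) - (x' + j * α')| ≤ (N + 1) * η := by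
    intro j hj
    have hj' : (j : ℝ) ≤ N := by exact_mod_cast hj
    have e : (x + j * α) - (x' + j * α') = (x - x') + j * (α - α') := by ring
    rw [e]
    have a1 := abs_add_le (x - x') (j * (α - α'))
    rw [abs_mul, Nat.abs_cast] at a1
    have a2 : (j : ℝ) * |α - α'| ≤ N * η := mul_le_mul hj' hα (abs_nonneg _) (by positivity)
    linarith
  refine ⟨key n hn, ?_⟩
  have hterm : ∀ j ∈ Finset.range n, |(k * (x + j * α) + φ (x + j * α)) -
      (k * (x' + j * α') + ψ (x' + j * α'))| ≤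
      (|(k : ℝ)| + K) * ((N + 1) * η) + (2 * η + 2 * K * (1 / (M : ℝ)) ^ 2) := by
    intro j hj
    have hjN : j ≤ N := by have := Finset.mem_range.1 hj; omega
    have a0 := key j hjN
    have a1 := close_fun hM h1 h2 hη h3 h4 (x' + j * α')
    have a2 := h1.lip0 (x + j * α) (x' + j * α')
    have e : (k * (x + j * α) + φ (x + j * α)) - (k * (x' + j * α') + ψ (x' + j * α')) =
      k * ((x + j * α) - (x' + j * α')) + ((φ (x + j * α) - φ (x' + j * α')) +
        (φ (x' + j * α') - ψ (x' + j * α'))) := by ring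
    rw [e]
    have b1 := abs_add_le ((k : ℝ) * ((x + j * α) - (x' + j * α')))
      ((φ (x + j * α) - φ (x' + j * α')) + (φ (x' + j * α') - ψ (x' + j * α')))
    have b2 := abs_add_le (φ (x + j * α) - φ (x' + j * α')) (φ (x' + j * α') - ψ (x' + j * α'))
    rw [abs_mul] at b1
    have b3 : |(k : ℝ)| * |(x + j * α) - (x' + j * α')| ≤ |(k : ℝ)| * ((N + 1) * η) :=
      mul_le_mul_of_nonneg_left a0 (abs_nonneg _)
    have b4 : (K : ℝ) * |(x + j * α) - (x' + j * α')| ≤ K * ((N + 1) * η) :=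
      mul_le_mul_of_nonneg_left a0 (by positivity)
    linarith
  have e : py k φ α x y n - py k ψ α' x' y' n = (y - y') + ∑ j ∈ Finset.range n,
      ((k * (x + j * α) + φ (x + j * α)) - (k * (x' + j * α') + ψ (x' + j * α'))) := by
    unfold py
    rw [Finset.sum_sub_distrib]
    ring
  rw [e]
  have c1 := abs_add_le (y - y') (∑ j ∈ Finset.range n,
      ((k * (x + j * α) + φ (x + j * α)) - (k * (x' + j * α') + ψ (x' + j * α'))))
  have c2 := Finset.abs_sum_le_sum_abs (fun j : ℕ =>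
      ((k * (x + j * α) + φ (x + j * α)) - (k * (x' + j * α') + ψ (x' + j * α'))))
      (Finset.range n)
  have c3 := Finset.sum_le_sum hterm
  rw [Finset.sum_const, Finset.card_range, nsmul_eq_mul] at c3
  have hn' : (n : ℝ) ≤ N := by exact_mod_cast hn
  have c4 : (n : ℝ) * ((|(k : ℝ)| + K) * ((N + 1) * η) + (2 * η + 2 * K * (1 / (M : ℝ)) ^ 2)) ≤
     N * ((|(k : ℝ)| + K) * ((N + 1) * η) + (2 * η + 2 * K * (1 / (M : ℝ)) ^ 2)) :=
    mul_le_mul_of_nonneg_right hn' (by positivity)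
  linarith

lemma dist_coe (a b : ℝ) : dist (a : UnitAddCircle) (b : UnitAddCircle) ≤ |a - b| := by
  rw [dist_eq_norm, ← AddCircle.coe_sub, UnitAddCircle.norm_eq]
  have := round_le (a - b) 0
  simpa using this


lemma floor_close {a b : ℝ} {E : ℕ} (h : ⌊a * 2 ^ E⌋ = ⌊b * 2 ^ E⌋) : |a - b| ≤ ((2 : ℝ) ^ E)⁻¹ := by
  have h1 := Int.abs_sub_lt_one_of_floor_eq_floor h
  have h2 : a * 2 ^ E - b * 2 ^ E = (a - b) * 2 ^ E := by ring
  rw [h2, abs_mul, abs_of_pos (show (0 : ℝ) < 2 ^ E by positivity)] at h1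
  rw [← one_div, le_div_iff₀ (by positivity)]
  exact h1.le

lemma floor_mem {a : ℝ} {K E : ℕ} (h : |a| ≤ K + 1) :
    ⌊a * 2 ^ E⌋ ∈ Finset.Icc (-(((K + 2) * 2 ^ E : ℕ) : ℤ)) (((K + 2) * 2 ^ E : ℕ) : ℤ) := by
  rw [abs_le] at h
  have hp : (1 : ℝ) ≤ 2 ^ E := one_le_pow₀ (by norm_num)
  rw [Finset.mem_Icc]
  constructor
  · rw [Int.le_floor]
    push_cast
    nlinarith
  · have : ⌊a * 2 ^ E⌋ < ((((K + 2) * 2 ^ E : ℕ) : ℤ)) := by
      rw [Int.floor_lt]
      push_cast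
      nlinarith
    exact this.le

/-- The data of a system with two initial coordinates. -/
structure Dat where
  α : ℝ
  x : ℝ
  y : ℝ
  φ : ℝ → ℝ

/-- The systems with a bound `K`. -/
def Good (K : ℕ) (s : Dat) : Prop :=
  s.α ∈ Ico (0 : ℝ) 1 ∧ s.x ∈ Ico (0 : ℝ) 1 ∧ s.y ∈ Ico (0 : ℝ) 1 ∧ Cls K s.φ

/-- the vector which is coded -/
noncomputable def vec (M : ℕ) (s : Dat) (i : ℕ) : ℝ :=
  if i = 0 then s.α else if i = 1 then s.x else if i = 2 then s.y else
    if i < 3 + M then s.φ (((i - 3 : ℕ) : ℝ) / M) else deriv s.φ (((i - 3 - M : ℕ) : ℝ) / M)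

lemma vec_bd {K M : ℕ} {s : Dat} (h : Good K s) (i : ℕ) : |vec M s i| ≤ K + 1 := by
  obtain ⟨⟨h1, h2⟩, ⟨h3, h4⟩, ⟨h5, h6⟩, h7⟩ := h
  have hK : (0 : ℝ) ≤ K := by positivity
  unfold vec
  split_ifs
  · rw [abs_of_nonneg h1]; linarith
  · rw [abs_of_nonneg h3]; linarith
  · rw [abs_of_nonneg h5]; linarith
  · have := h7.bd (((i - 3 : ℕ) : ℝ) / M); linarith
  · have := h7.bd1 (((i - 3 - M : ℕ) : ℝ) / M); linarith

lemma counting (k : ℤ) (K : ℕ) (G : C(UnitAddCircle × UnitAddCircle, ℝ)) :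
    ∃ C : ℕ, ∀ (N : ℕ) (B : Finset ℕ), (∀ p ∈ B, p ≤ N) →
      C * ((Nat.log 2 N + 1) * (Nat.sqrt N + 1)) < B.card → ∃ b : ℕ → Bool, ∀ s : Dat, Good K s →
        ∃ p ∈ B, 1 / 4 ≤ |G (((px s.α s.x p : ℝ) : UnitAddCircle),
          ((py k s.φ s.α s.x s.y p : ℝ) : UnitAddCircle)) - (if b p then 1 else 0)| := by
  have huc : UniformContinuous G := CompactSpace.uniformContinuous_of_continuous G.continuous
  obtain ⟨δ, hδ, hG⟩ := Metric.uniformContinuous_iff.1 huc (1 / 2) (by norm_num)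
  obtain ⟨A, hA⟩ := exists_nat_gt (8 * K / δ + 1)
  have hA1 : 1 ≤ A := by
    have : (1 : ℝ) ≤ A := by
      have : (0 : ℝ) ≤ 8 * K / δ := by positivity
      linarith
    exact_mod_cast this
  obtain ⟨b₀, hb₀⟩ := pow_unbounded_of_one_lt (4 * (|(k : ℝ)| + K + 3) / δ) (one_lt_two (α := ℝ))
  refine ⟨(K + 6 + b₀) * (2 * A + 3), fun N B hB hcard => ?_⟩
  by_contra hcon
  push Not at hcon
  choose t ht ht2 using hcon
  set Q := Nat.sqrt N + 1 with hQ
  set L := Nat.log 2 N + 1 with hL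
  set M := A * Q with hM
  set E := b₀ + 2 * L with hE
  have hM0 : 0 < M := by positivity
  have hNQ : N < Q * Q := Nat.lt_succ_sqrt N
  have hNL : N + 1 ≤ 2 ^ L := Nat.lt_pow_succ_log_self (by norm_num) N
  set W : ℕ := (K + 2) * 2 ^ E with hW
  -- the code
  let ext : (B → Bool) → ℕ → Bool := fun β p => if h : p ∈ B then β ⟨p, h⟩ else false
  let code : (B → Bool) → Fin (2 * M + 3) → Finset.Icc (-(W : ℤ)) (W : ℤ) := fun β i =>
    ⟨⌊vec M (t (ext β)) i * 2 ^ E⌋, floor_mem (vec_bd (ht (ext β)) i)⟩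
  have hinj : Function.Injective code := by
    intro β β' hββ
    have hv : ∀ i < 2 * M + 3, |vec M (t (ext β)) i - vec M (t (ext β')) i| ≤ ((2 : ℝ) ^ E)⁻¹ := by
      intro i hi
      refine floor_close ?_
      have := congrArg Subtype.val (congrFun hββ ⟨i, hi⟩)
      exact this
    set s := t (ext β) with hs
    set s' := t (ext β') with hs'
    have hη0 : (0 : ℝ) ≤ ((2 : ℝ) ^ E)⁻¹ := by positivity
    have v0 := hv 0 (by omega)
    have v1 := hv 1 (by omega)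
    have v2 := hv 2 (by omega)
    have v3 : ∀ i < M, |s.φ ((i : ℝ) / M) - s'.φ ((i : ℝ) / M)| ≤ ((2 : ℝ) ^ E)⁻¹ := by
      intro i hi
      have := hv (i + 3) (by omega)
      simpa [vec, show i + 3 ≠ 1 by omega, show i + 3 ≠ 2 by omega, show i + 3 < 3 + M by omega]
        using this
    have v4 : ∀ i < M, |deriv s.φ ((i : ℝ) / M) - deriv s'.φ ((i : ℝ) / M)| ≤
        ((2 : ℝ) ^ E)⁻¹ := by
      intro i hi
      have := hv (i + (3 + M)) (by omega)
      have e : i + (3 + M) - 3 - M = i := by omega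
      simpa [vec, show i + (3 + M) ≠ 0 by omega, show i + (3 + M) ≠ 1 by omega,
        show i + (3 + M) ≠ 2 by omega, show ¬ (i + (3 + M) < 3 + M) by omega, e]
        using this
    simp only [vec, if_true, if_false, one_ne_zero, OfNat.ofNat_ne_zero, OfNat.ofNat_ne_one]
      at v0 v1 v2
    funext p
    by_contra hne
    have hpN : (p : ℕ) ≤ N := hB p p.2
    obtain ⟨o1, o2⟩ := close_orbit hM0 k (ht (ext β)).2.2.2 (ht (ext β')).2.2.2 hη0 v3 v4
      v0 v1 v2 hpN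
    have hd : dist (((px s.α s.x p : ℝ) : UnitAddCircle),
          ((py k s.φ s.α s.x s.y p : ℝ) : UnitAddCircle))
        (((px s'.α s'.x p : ℝ) : UnitAddCircle),
          ((py k s'.φ s'.α s'.x s'.y p : ℝ) : UnitAddCircle)) < δ := by
      have hN1 : ((N : ℝ) + 1) ≤ 2 ^ L := by exact_mod_cast hNL
      have hN2 : ((N : ℝ) + 1) * (N + 1) ≤ 2 ^ L * 2 ^ L :=
        mul_le_mul hN1 hN1 (by positivity) (by positivity)
      have hE2 : (2 : ℝ) ^ E = 2 ^ b₀ * (2 ^ L * 2 ^ L) := by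
        rw [hE, pow_add, two_mul, pow_add]
      have hq : ((N : ℝ) + 1) * (N + 1) * ((2 : ℝ) ^ E)⁻¹ ≤ ((2 : ℝ) ^ b₀)⁻¹ := by
        rw [hE2, mul_inv]
        have : ((N : ℝ) + 1) * (N + 1) * ((2 : ℝ) ^ L * 2 ^ L)⁻¹ ≤ 1 := by
          rw [← div_eq_mul_inv]
          exact div_le_one_of_le₀ hN2 (by positivity)
        calc ((N : ℝ) + 1) * (N + 1) * (((2 : ℝ) ^ b₀)⁻¹ * ((2 : ℝ) ^ L * 2 ^ L)⁻¹)
            = ((2 : ℝ) ^ b₀)⁻¹ * (((N : ℝ) + 1) * (N + 1) * ((2 : ℝ) ^ L * 2 ^ L)⁻¹) := by ring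
          _ ≤ ((2 : ℝ) ^ b₀)⁻¹ * 1 := mul_le_mul_of_nonneg_left this (by positivity)
          _ = ((2 : ℝ) ^ b₀)⁻¹ := mul_one _
      have hb2 : ((2 : ℝ) ^ b₀)⁻¹ * (|(k : ℝ)| + K + 3) ≤ δ / 4 := by
        rw [inv_mul_le_iff₀ (by positivity)]
        have := hb₀.le
        rw [div_le_iff₀ hδ] at this
        nlinarith
      have hMQ : 2 * (K : ℝ) * (1 / (M : ℝ)) ^ 2 * N ≤ δ / 4 := by
        have hMr : (M : ℝ) = A * Q := by rw [hM]; push_cast; rfl
        have hA0 : (0 : ℝ) < A := by exact_mod_cast hA1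
        have hQ0 : (0 : ℝ) < Q := by positivity
        have hNQr : (N : ℝ) ≤ Q * Q := by exact_mod_cast hNQ.le
        have hA2 : (8 : ℝ) * K ≤ A * δ := by
          have : 8 * (K : ℝ) / δ < A := by linarith
          rw [div_lt_iff₀ hδ] at this
          exact this.le
        have hA1' : (1 : ℝ) ≤ A := by exact_mod_cast hA1
        rw [hMr]
        have e : 2 * (K : ℝ) * (1 / ((A : ℝ) * Q)) ^ 2 * N = 2 * K * N / ((A * Q) * (A * Q)) := by
          field_simp
        rw [e, div_le_iff₀ (by positivity)]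
        have h1 : 2 * (K : ℝ) * N ≤ 2 * K * (Q * Q) :=
          mul_le_mul_of_nonneg_left hNQr (by positivity)
        have h2 : 8 * (K : ℝ) * (Q * Q) ≤ A * δ * (Q * Q) :=
          mul_le_mul_of_nonneg_right hA2 (by positivity)
        have h3 : A * δ * (Q * Q) * 1 ≤ A * δ * ((Q : ℝ) * Q) * A :=
          mul_le_mul_of_nonneg_left hA1' (by positivity)
        nlinarith
      have hη1 : ((2 : ℝ) ^ E)⁻¹ ≤ ((N : ℝ) + 1) * (N + 1) * ((2 : ℝ) ^ E)⁻¹ := by
        have : (1 : ℝ) ≤ ((N : ℝ) + 1) * (N + 1) := by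
          have : (0 : ℝ) ≤ N := by positivity
          nlinarith
        nlinarith
      have hηN : (N : ℝ) * ((2 : ℝ) ^ E)⁻¹ ≤ ((N : ℝ) + 1) * (N + 1) * ((2 : ℝ) ^ E)⁻¹ := by
        refine mul_le_mul_of_nonneg_right ?_ hη0
        have : (0 : ℝ) ≤ N := by positivity
        nlinarith
      have hηN1 : ((N : ℝ) + 1) * ((2 : ℝ) ^ E)⁻¹ ≤ ((N : ℝ) + 1) * (N + 1) * ((2 : ℝ) ^ E)⁻¹ := by
        refine mul_le_mul_of_nonneg_right ?_ hη0
        have : (0 : ℝ) ≤ N := by positivity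
        nlinarith
      have hηN2 : (N : ℝ) * (((N : ℝ) + 1) * ((2 : ℝ) ^ E)⁻¹) ≤
          ((N : ℝ) + 1) * (N + 1) * ((2 : ℝ) ^ E)⁻¹ := by
        rw [← mul_assoc]
        refine mul_le_mul_of_nonneg_right ?_ hη0
        have : (0 : ℝ) ≤ N := by positivity
        nlinarith
      have hkK : (0 : ℝ) ≤ |(k : ℝ)| + K := by positivity
      have r3 : (|(k : ℝ)| + K) * ((N : ℝ) * (((N : ℝ) + 1) * ((2 : ℝ) ^ E)⁻¹)) ≤
          (|(k : ℝ)| + K) * ((2 : ℝ) ^ b₀)⁻¹ :=
        mul_le_mul_of_nonneg_left (hηN2.trans hq) hkK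
      have hb3 : ((2 : ℝ) ^ b₀)⁻¹ ≤ δ / 4 := by
        have : (0 : ℝ) ≤ ((2 : ℝ) ^ b₀)⁻¹ := by positivity
        nlinarith
      rw [Prod.dist_eq, max_lt_iff]
      constructor
      · refine lt_of_le_of_lt (dist_coe _ _) ?_
        show |px s.α s.x p - px s'.α s'.x p| < δ
        linarith
      · refine lt_of_le_of_lt (dist_coe _ _) ?_
        show |py k s.φ s.α s.x s.y p - py k s'.φ s'.α s'.x s'.y p| < δ
        have e : ((2 : ℝ) ^ E)⁻¹ + N * ((|(k : ℝ)| + K) * ((N + 1) * ((2 : ℝ) ^ E)⁻¹) +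
          (2 * ((2 : ℝ) ^ E)⁻¹ + 2 * K * (1 / (M : ℝ)) ^ 2)) = ((2 : ℝ) ^ E)⁻¹ +
          (|(k : ℝ)| + K) * ((N : ℝ) * (((N : ℝ) + 1) * ((2 : ℝ) ^ E)⁻¹)) +
          2 * (N * ((2 : ℝ) ^ E)⁻¹) + 2 * K * (1 / (M : ℝ)) ^ 2 * N := by ring
        rw [e] at o2
        nlinarith
    have hG1 := hG hd
    rw [Real.dist_eq] at hG1
    have g1 := ht2 (ext β) p p.2
    have g2 := ht2 (ext β') p p.2
    have x1 : ext β p = β p := by simp [ext]
    have x2 : ext β' p = β' p := by simp [ext]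
    rw [x1] at g1
    rw [x2] at g2
    rw [abs_lt] at hG1 g1 g2
    rcases Bool.eq_false_or_eq_true (β p) with hb | hb <;>
    rcases Bool.eq_false_or_eq_true (β' p) with hb' | hb' <;>
    simp only [hb, hb', if_true, if_false, Bool.false_eq_true] at g1 g2 hne
    · exact hne trivial
    · linarith [hG1.1, hG1.2, g1.1, g1.2, g2.1, g2.2]
    · linarith [hG1.1, hG1.2, g1.1, g1.2, g2.1, g2.2]
    · exact hne trivial
  have hc := Fintype.card_le_of_injective code hinj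
  rw [Fintype.card_fun, Fintype.card_fun, Fintype.card_bool, Fintype.card_fin, Fintype.card_coe,
    Fintype.card_coe, Int.card_Icc] at hc
  have hW2 : ((W : ℤ) + 1 - -(W : ℤ)).toNat = 2 * W + 1 := by omega
  rw [hW2] at hc
  have hK2 : K + 2 ≤ 2 ^ (K + 2) := (Nat.lt_two_pow_self).le
  have hW3 : 2 * W + 1 ≤ 2 ^ (K + 4 + E) := by
    have h1 : W ≤ 2 ^ (K + 2) * 2 ^ E := Nat.mul_le_mul_right _ hK2
    have h2 : 2 ^ (K + 4 + E) = 4 * (2 ^ (K + 2) * 2 ^ E) := by
      rw [show K + 4 + E = 2 + (K + 2) + E by ring, pow_add, pow_add]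
      ring
    have h3 : 1 ≤ 2 ^ (K + 2) * 2 ^ E := Nat.one_le_iff_ne_zero.2 (by positivity)
    omega
  have hc2 : 2 ^ B.card ≤ 2 ^ ((K + 4 + E) * (2 * M + 3)) := by
    rw [pow_mul]
    exact hc.trans (Nat.pow_le_pow_left hW3 _)
  have hc3 : B.card ≤ (K + 4 + E) * (2 * M + 3) := (Nat.pow_le_pow_iff_right (by norm_num)).1 hc2
  have hL1 : 1 ≤ L := by omega
  have hQ1 : 1 ≤ Q := by omega
  have hc4 : (K + 4 + E) ≤ (K + 6 + b₀) * L := by
    rw [hE]
    nlinarith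
  have hc5 : 2 * M + 3 ≤ (2 * A + 3) * Q := by
    rw [hM]
    nlinarith
  have hc6 := Nat.mul_le_mul hc4 hc5
  have : (K + 6 + b₀) * L * ((2 * A + 3) * Q) = (K + 6 + b₀) * (2 * A + 3) * (L * Q) := by ring
  omega

lemma bdd_of_periodic {g : ℝ → ℝ} (hp : Function.Periodic g 1) (hc : Continuous g) :
    ∃ C : ℝ, ∀ t, |g t| ≤ C := by
  obtain ⟨C, hC⟩ := (isCompact_Icc (a := (0 : ℝ)) (b := 1)).exists_bound_of_continuousOn
    hc.continuousOn
  refine ⟨C, fun t => ?_⟩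
  obtain ⟨y, hy, h⟩ := hp.exists_mem_Ico₀ one_pos t
  rw [h]
  exact hC y ⟨hy.1, hy.2.le⟩

lemma exists_cls {φ : ℝ → ℝ} (hp : Function.Periodic φ 1) (hd : Differentiable ℝ φ)
    (hl : ∃ K : NNReal, LipschitzWith K (deriv φ)) : ∃ K : ℕ, Cls K φ := by
  obtain ⟨K0, hK0⟩ := hl
  have hp1 : Function.Periodic (deriv φ) 1 := by
    intro t
    have h1 := deriv_comp_add_const φ 1 t
    rw [← h1]
    congr 1
    funext u
    exact hp u
  obtain ⟨C0, hC0⟩ := bdd_of_periodic hp hd.continuous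
  obtain ⟨C1, hC1⟩ := bdd_of_periodic hp1 hK0.continuous
  obtain ⟨K, hK⟩ := exists_nat_gt ((K0 : ℝ) + |C0| + |C1|)
  have a0 : (0 : ℝ) ≤ K0 := K0.2
  have a1 := le_abs_self C0
  have a2 := le_abs_self C1
  have a3 := abs_nonneg C0
  have a4 := abs_nonneg C1
  refine ⟨K, hp, hd, ?_, ?_, ?_, ?_⟩
  · intro a b
    have h := hK0.dist_le_mul a b
    rw [Real.dist_eq, Real.dist_eq] at h
    have : (K0 : ℝ) * |a - b| ≤ K * |a - b| :=
      mul_le_mul_of_nonneg_right (by linarith) (abs_nonneg _)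
    linarith
  · intro a b
    have h : ‖φ a - φ b‖ ≤ K * ‖a - b‖ :=
      Convex.norm_image_sub_le_of_norm_deriv_le (s := Set.univ) (fun t _ => hd t)
        (fun t _ => by rw [Real.norm_eq_abs]; have := hC1 t; linarith) convex_univ
        (Set.mem_univ _) (Set.mem_univ _)
    simpa [Real.norm_eq_abs] using h
  · intro t; have := hC0 t; linarith
  · intro t; have := hC1 t; linarith

lemma exists_rep (u : UnitAddCircle) : ∃ x : ℝ, x ∈ Ico (0 : ℝ) 1 ∧ (x : UnitAddCircle) = u := by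
  obtain ⟨x, rfl⟩ := QuotientAddGroup.mk_surjective u
  refine ⟨Int.fract x, ⟨Int.fract_nonneg x, Int.fract_lt_one x⟩, ?_⟩
  have h : x = Int.fract x + (⌊x⌋ : ℝ) := (Int.fract_add_floor x).symm
  have h0 : (((⌊x⌋ : ℤ) : ℝ) : UnitAddCircle) = 0 := by
    rw [AddCircle.coe_eq_zero_iff]
    exact ⟨⌊x⌋, by simp⟩
  conv_rhs => rw [show (QuotientAddGroup.mk x : UnitAddCircle) = ((x : ℝ) : UnitAddCircle) from rfl,
    h, AddCircle.coe_add, h0, add_zero]

open Classical in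
/-- the number of the elements of `S` up to `N` -/
noncomputable def cnt (S : Set ℕ) (N : ℕ) : ℕ := ((Finset.range (N + 1)).filter (· ∈ S)).card

open Classical in
lemma step {S : Set ℕ} (hS : ∀ C N₀ : ℕ, ∃ N,
    C * ((Nat.log 2 N + 1) * (Nat.sqrt N + 1)) + N₀ < cnt S N) (k : ℤ) (K : ℕ)
    (G : C(UnitAddCircle × UnitAddCircle, ℝ)) (N₀ : ℕ) : ∃ N, N₀ < N ∧ ∃ b : ℕ → Bool,
      ∀ s : Dat, Good K s → ∃ p ∈ S, N₀ < p ∧ p ≤ N ∧
        1 / 4 ≤ |G (((px s.α s.x p : ℝ) : UnitAddCircle),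
          ((py k s.φ s.α s.x s.y p : ℝ) : UnitAddCircle)) - (if b p then 1 else 0)| := by
  obtain ⟨C, hC⟩ := counting k K G
  obtain ⟨N, hN⟩ := hS C (N₀ + 1)
  set B := (Finset.range (N + 1)).filter (fun p => p ∈ S ∧ N₀ < p) with hB
  have hsub : (Finset.range (N + 1)).filter (· ∈ S) ⊆ Finset.range (N₀ + 1) ∪ B := by
    intro p hp
    rw [Finset.mem_filter] at hp
    rw [Finset.mem_union, Finset.mem_range, hB, Finset.mem_filter]
    by_cases h : N₀ < p
    · exact Or.inr ⟨hp.1, hp.2, h⟩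
    · exact Or.inl (by omega)
  have hcard : cnt S N ≤ (N₀ + 1) + B.card := by
    have h1 := Finset.card_le_card hsub
    have h2 := Finset.card_union_le (Finset.range (N₀ + 1)) B
    rw [Finset.card_range] at h2
    exact h1.trans h2
  have hBc : C * ((Nat.log 2 N + 1) * (Nat.sqrt N + 1)) < B.card := by omega
  obtain ⟨b, hb⟩ := hC N B (fun p hp => by
    have := (Finset.mem_filter.1 hp).1
    rw [Finset.mem_range] at this
    omega) hBc
  have hne : B.Nonempty := Finset.card_pos.1 (by omega)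
  obtain ⟨q, hq⟩ := hne
  have hq' := Finset.mem_filter.1 hq
  rw [Finset.mem_range] at hq'
  refine ⟨N, by omega, b, fun s hs => ?_⟩
  obtain ⟨p, hp, h⟩ := hb s hs
  have hp' := Finset.mem_filter.1 hp
  rw [Finset.mem_range] at hp'
  exact ⟨p, hp'.2.1, hp'.2.2, by omega, h⟩

/-- Some function `f` on `S` with the values `0, 1` is not of the form `n ↦ F (T^n z)`, for any
skew product `T` of class `C^{1,1}` (any `a`, `k`, `φ`), any point `z` and any continuous `F`. -/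
def Fails (S : Set ℕ) : Prop :=
  ∃ f : ℕ → ℝ, (∀ n, f n = 0 ∨ f n = 1) ∧ ∀ (a : UnitAddCircle) (k : ℤ) (φ : ℝ → ℝ)
    (hφ : Function.Periodic φ 1), Differentiable ℝ φ → (∃ K : NNReal, LipschitzWith K (deriv φ)) →
      ∀ (z : UnitAddCircle × UnitAddCircle) (F : UnitAddCircle × UnitAddCircle → ℂ),
        Continuous F → ∃ n ∈ S, F ((skew a k φ hφ)^[n] z) ≠ (f n : ℂ)

lemma fails {S : Set ℕ} (hS : ∀ C N₀ : ℕ, ∃ N,
    C * ((Nat.log 2 N + 1) * (Nat.sqrt N + 1)) + N₀ < cnt S N) : Fails S := by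
  obtain ⟨e, he⟩ := exists_surjective_nat (ℤ × ℕ × ℕ)
  let G : ℕ → C(UnitAddCircle × UnitAddCircle, ℝ) := TopologicalSpace.denseSeq _
  choose Nx hNx b hb using fun (j N₀ : ℕ) => step hS (e j).1 (e j).2.1 (G (e j).2.2) N₀
  let A : ℕ → ℕ := fun n => Nat.rec (motive := fun _ => ℕ) 0 (fun j a => Nx j a) n
  have hA1 : ∀ j, A (j + 1) = Nx j (A j) := fun j => rfl
  have hAmono : StrictMono A := strictMono_nat_of_lt_succ fun j => by rw [hA1]; exact hNx j (A j)
  let kk : ℕ → ℕ := fun (p : ℕ) => Nat.findGreatest (fun j : ℕ => A j < p) p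
  have hkk : ∀ j p, A j < p → p ≤ A (j + 1) → kk p = j := by
    intro j p h1 h2
    have hj : j ≤ p := (hAmono.id_le j).trans h1.le
    refine le_antisymm ?_ (Nat.le_findGreatest (P := fun j : ℕ => A j < p) hj h1)
    by_contra h
    push Not at h
    have h3 : A (Nat.findGreatest (fun j : ℕ => A j < p) p) < p :=
      Nat.findGreatest_spec (P := fun j : ℕ => A j < p) (m := j) (n := p) hj h1
    have h3' : A (kk p) < p := h3
    have h4 : A (j + 1) ≤ A (kk p) := hAmono.monotone h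
    omega
  refine ⟨fun p => if b (kk p) (A (kk p)) p then 1 else 0, fun n => ?_, ?_⟩
  · dsimp only
    split_ifs
    · exact Or.inr rfl
    · exact Or.inl rfl
  intro a k φ hφ hd hl z F hF
  by_contra hcon
  push Not at hcon
  obtain ⟨K, hK⟩ := exists_cls hφ hd hl
  obtain ⟨α, hα, rfl⟩ := exists_rep a
  obtain ⟨x, hx, hx'⟩ := exists_rep z.1
  obtain ⟨y, hy, hy'⟩ := exists_rep z.2
  have hz : z = ((x : UnitAddCircle), (y : UnitAddCircle)) := Prod.ext hx'.symm hy'.symm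
  let R : C(UnitAddCircle × UnitAddCircle, ℝ) := ⟨fun u => (F u).re, Complex.continuous_re.comp hF⟩
  obtain ⟨i, hi⟩ := (TopologicalSpace.denseRange_denseSeq
    (C(UnitAddCircle × UnitAddCircle, ℝ))).exists_dist_lt R (show (0 : ℝ) < 1 / 4 by norm_num)
  obtain ⟨j, hj⟩ := he (k, K, i)
  have h1 := hb j (A j) ⟨α, x, y, φ⟩ ⟨hα, hx, hy, by rw [hj]; exact hK⟩
  obtain ⟨p, hpS, hp1, hp2, hp3⟩ := h1
  have hkp := hkk j p hp1 (by rw [hA1]; exact hp2)
  have h2 := hcon p hpS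
  rw [hz, iter] at h2
  have h3 : R (((px α x p : ℝ) : UnitAddCircle), ((py k φ α x y p : ℝ) : UnitAddCircle)) =
      if b j (A j) p then 1 else 0 := by
    show (F _).re = _
    rw [h2, Complex.ofReal_re, hkp]
  have h4 := ContinuousMap.dist_apply_le_dist (f := R) (g := G i)
    (((px α x p : ℝ) : UnitAddCircle), ((py k φ α x y p : ℝ) : UnitAddCircle))
  rw [hj] at hp3
  dsimp only at hp3
  rw [← h3] at hp3
  rw [Real.dist_eq, abs_sub_comm] at h4
  have h5 : dist R (G i) < 1 / 4 := hi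
  linarith


open Classical in
lemma pi_bound (s : ℕ) (hs : 1 ≤ s) : 4 ^ s ≤ 2 * s * (cnt {p | p.Prime} (4 ^ s) + 1) := by
  set n := 2 * 4 ^ (s - 1) with hn
  have hn2 : 2 * n = 4 ^ s := by
    obtain ⟨t, rfl⟩ : ∃ t, s = t + 1 := ⟨s - 1, by omega⟩
    rw [hn, pow_succ]
    simp
    ring
  have hn0 : 0 < n := by positivity
  have h1 := Nat.four_pow_le_two_mul_self_mul_centralBinom n hn0
  have h2 : Nat.centralBinom n ≤ (2 * n) ^ (cnt {p | p.Prime} (2 * n)) := by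
    rw [← Nat.prod_pow_factorization_centralBinom n]
    calc ∏ p ∈ Finset.range (2 * n + 1), p ^ (Nat.centralBinom n).factorization p
        ≤ ∏ p ∈ Finset.range (2 * n + 1), (if p.Prime then 2 * n else 1) := by
          refine Finset.prod_le_prod (fun _ _ => Nat.zero_le _) fun p _ => ?_
          split_ifs with h
          · exact Nat.pow_factorization_choose_le (by omega)
          · rw [Nat.factorization_eq_zero_of_not_prime _ h, pow_zero]
      _ = (2 * n) ^ (cnt {p | p.Prime} (2 * n)) := by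
          rw [Finset.prod_ite, Finset.prod_const, Finset.prod_const, one_pow, mul_one]
          unfold cnt
          congr 2
          ext p
          simp
  rw [hn2] at h1 h2
  have h3 : 4 ^ n ≤ 4 ^ s * (4 ^ s) ^ (cnt {p | p.Prime} (4 ^ s)) :=
    h1.trans (Nat.mul_le_mul_left _ h2)
  have h4 : (4 : ℕ) ^ n = 2 ^ (4 ^ s) := by
    rw [show (4 : ℕ) = 2 ^ 2 by norm_num, ← pow_mul, hn2]
    norm_num
  have h5 : 4 ^ s * (4 ^ s) ^ (cnt {p | p.Prime} (4 ^ s)) =
      2 ^ (2 * s * (cnt {p | p.Prime} (4 ^ s) + 1)) := by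
    rw [pow_mul 2 (2 * s), pow_mul 2 2 s, pow_succ]
    norm_num
    ring
  rw [h4, h5] at h3
  exact (Nat.pow_le_pow_iff_right (by norm_num)).1 h3

lemma primes_many (C N₀ : ℕ) : ∃ N,
    C * ((Nat.log 2 N + 1) * (Nat.sqrt N + 1)) + N₀ < cnt {p | p.Prime} N := by
  have ht := tendsto_pow_const_div_const_pow_of_one_lt 2 (one_lt_two (α := ℝ))
  have hpos : (0 : ℝ) < 1 / (12 * (C + N₀ + 1)) := by positivity
  obtain ⟨s, hs1, hs⟩ := ((eventually_ge_atTop 1).and (ht.eventually_lt_const hpos)).exists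
  refine ⟨4 ^ s, ?_⟩
  have hlog : Nat.log 2 (4 ^ s) = 2 * s := by
    rw [show (4 : ℕ) = 2 ^ 2 by norm_num, ← pow_mul, Nat.log_pow (by norm_num)]
  have hsq : Nat.sqrt (4 ^ s) = 2 ^ s := by
    rw [show (4 : ℕ) = 2 * 2 by norm_num, mul_pow, Nat.sqrt_eq]
  rw [hlog, hsq]
  by_contra h
  push Not at h
  have h1 := pi_bound s hs1
  have h2 : 4 ^ s ≤ 2 * s * (C * ((2 * s + 1) * (2 ^ s + 1)) + N₀ + 1) :=
    h1.trans (Nat.mul_le_mul_left _ (by omega))
  have h3 : C * ((2 * s + 1) * (2 ^ s + 1)) + N₀ + 1 ≤ (C + N₀ + 1) * (6 * s * 2 ^ s) := by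
    have e1 : 2 * s + 1 ≤ 3 * s := by omega
    have e2 : 1 ≤ 2 ^ s := Nat.one_le_two_pow
    have e3 : 2 ^ s + 1 ≤ 2 * 2 ^ s := by omega
    have e4 := Nat.mul_le_mul e1 e3
    have e5 : 3 * s * (2 * 2 ^ s) = 6 * s * 2 ^ s := by ring
    rw [e5] at e4
    have e6 : 1 ≤ 6 * s * 2 ^ s := Nat.one_le_iff_ne_zero.2 (by positivity)
    nlinarith
  have h4 : 4 ^ s ≤ 2 * s * ((C + N₀ + 1) * (6 * s * 2 ^ s)) := h2.trans (Nat.mul_le_mul_left _ h3)
  have h5 : (2 : ℝ) ^ s * 2 ^ s ≤ 2 * s * ((C + N₀ + 1) * (6 * s * 2 ^ s)) := by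
    have : (2 : ℝ) ^ s * 2 ^ s = ((4 ^ s : ℕ) : ℝ) := by
      push_cast
      rw [← mul_pow]
      norm_num
    rw [this]
    exact_mod_cast h4
  have h6 : (0 : ℝ) < 2 ^ s := by positivity
  have h7 : (2 : ℝ) ^ s ≤ 12 * (C + N₀ + 1) * s ^ 2 := by
    have : (2 : ℝ) ^ s * 2 ^ s ≤ (12 * (C + N₀ + 1) * s ^ 2) * 2 ^ s := by
      calc (2 : ℝ) ^ s * 2 ^ s ≤ 2 * s * ((C + N₀ + 1) * (6 * s * 2 ^ s)) := h5
        _ = (12 * (C + N₀ + 1) * s ^ 2) * 2 ^ s := by ring
    exact le_of_mul_le_mul_right this h6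
  rw [div_lt_div_iff₀ h6 (by positivity)] at hs
  linarith

open Classical in
lemma many_of_real {S : Set ℕ} (h : ∀ C : ℝ, ∃ᶠ N : ℕ in atTop,
    C * (√N * Real.log N) < ({n | n ∈ S ∧ n ≤ N} : Set ℕ).ncard) (C N₀ : ℕ) : ∃ N,
    C * ((Nat.log 2 N + 1) * (Nat.sqrt N + 1)) + N₀ < cnt S N := by
  obtain ⟨N, hN, hN2⟩ := ((h (6 * C + 2 * N₀)).and_eventually (eventually_ge_atTop 2)).exists
  refine ⟨N, ?_⟩
  have hc : ({n | n ∈ S ∧ n ≤ N} : Set ℕ).ncard = cnt S N := by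
    unfold cnt
    rw [← Set.ncard_coe_finset]
    congr 1
    ext n
    simp [and_comm]
  rw [hc] at hN
  have hN2' : (2 : ℝ) ≤ N := by exact_mod_cast hN2
  have hl2 : (0.69 : ℝ) < Real.log 2 := by linarith [Real.log_two_gt_d9]
  have hlN : Real.log 2 ≤ Real.log N := Real.log_le_log (by norm_num) hN2'
  have hlog : ((Nat.log 2 N : ℕ) : ℝ) * Real.log 2 ≤ Real.log N := by
    have h1 : 2 ^ Nat.log 2 N ≤ N := Nat.pow_log_le_self 2 (by omega)
    have h2 : (2 : ℝ) ^ Nat.log 2 N ≤ N := by exact_mod_cast h1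
    have h3 := Real.log_le_log (by positivity) h2
    rwa [Real.log_pow] at h3
  have hL : ((Nat.log 2 N : ℕ) : ℝ) + 1 ≤ 3 * Real.log N := by nlinarith
  have hs1 : (1 : ℝ) ≤ √N := by
    rw [Real.one_le_sqrt]; linarith
  have hs : ((Nat.sqrt N : ℕ) : ℝ) + 1 ≤ 2 * √N := by
    have := Real.nat_sqrt_le_real_sqrt (a := N)
    linarith
  have hprod : (((Nat.log 2 N : ℕ) : ℝ) + 1) * (((Nat.sqrt N : ℕ) : ℝ) + 1) ≤
      (3 * Real.log N) * (2 * √N) := mul_le_mul hL hs (by positivity) (by linarith)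
  have h1 : (C : ℝ) * ((((Nat.log 2 N : ℕ) : ℝ) + 1) * (((Nat.sqrt N : ℕ) : ℝ) + 1)) ≤
      C * ((3 * Real.log N) * (2 * √N)) := mul_le_mul_of_nonneg_left hprod (by positivity)
  have h2 : (1 : ℝ) ≤ 2 * (√N * Real.log N) := by
    have : (1 : ℝ) * 0.69 ≤ √N * Real.log N := mul_le_mul hs1 (by linarith) (by norm_num) (by linarith)
    linarith
  have h3 : (N₀ : ℝ) * 1 ≤ N₀ * (2 * (√N * Real.log N)) :=
    mul_le_mul_of_nonneg_left h2 (by positivity)
  have h4 : (C : ℝ) * ((((Nat.log 2 N : ℕ) : ℝ) + 1) * (((Nat.sqrt N : ℕ) : ℝ) + 1)) + N₀ <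
      cnt S N := by
    calc (C : ℝ) * ((((Nat.log 2 N : ℕ) : ℝ) + 1) * (((Nat.sqrt N : ℕ) : ℝ) + 1)) + N₀
        ≤ C * ((3 * Real.log N) * (2 * √N)) + N₀ * (2 * (√N * Real.log N)) := by linarith
      _ = (6 * C + 2 * N₀) * (√N * Real.log N) := by ring
      _ < cnt S N := hN
  exact_mod_cast h4

/-- (1) Sets `S` with more than `C √N log N` elements up to `N`, for all `C` and infinitely many
`N`; (2) the primes. -/
theorem result :
    (∀ S : Set ℕ, (∀ C : ℝ, ∃ᶠ N : ℕ in atTop,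
      C * (√N * Real.log N) < ({n | n ∈ S ∧ n ≤ N} : Set ℕ).ncard) → Fails S) ∧
    Fails {p | p.Prime} :=
  ⟨fun _ h => fails (many_of_real h), fails primes_many⟩

end Pool.Agent.Results.MP_ff27c1_an.SmoothSkewProducts
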